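import Pool.Agent.helper1.T1N.SpecN

set_option autoImplicit false

open MeasureTheory Finset

namespace Pool.Agent.T1N

noncomputable section

/-- Cauchy-Schwarz on a compact set -/
theorem NLS_cs (Q : Set (ℝ × ℝ)) (hQ : IsCompact Q) (f : ℝ × ℝ → ℝ) (hf : Continuous f) (v : ℝ)
    (hv : volume.real Q = v) (hv0 : 0 < v) : (∫ p in Q, f p) ^ 2 ≤ v * ∫ p in Q, f p ^ 2 := by
  have i1 : IntegrableOn f Q := hf.continuousOn.integrableOn_compact hQ
  have i2 : IntegrableOn (fun p => f p ^ 2) Q := (hf.pow 2).continuousOn.integrableOn_compact hQ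
  have i3 : IntegrableOn (fun _ : ℝ × ℝ => ((∫ p in Q, f p) / v) ^ 2) Q := continuousOn_const.integrableOn_compact hQ
  have h0 : 0 ≤ ∫ p in Q, (f p - (∫ p in Q, f p) / v) ^ 2 := integral_nonneg fun p => sq_nonneg _
  have h1 : ∫ p in Q, (f p - (∫ p in Q, f p) / v) ^ 2 =
      (∫ p in Q, f p ^ 2) - 2 * ((∫ p in Q, f p) / v) * (∫ p in Q, f p) + v * ((∫ p in Q, f p) / v) ^ 2 := by
    set m : ℝ := (∫ p in Q, f p) / v with hm
    have e : (fun p => (f p - m) ^ 2) = fun p => (f p ^ 2 - (2 * m) * f p) + m ^ 2 := by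
      funext p
      ring
    have i4 : IntegrableOn (fun p => (2 * m) * f p) Q := i1.const_mul _
    have i5 : IntegrableOn (fun p => f p ^ 2 - (2 * m) * f p) Q := i2.sub i4
    rw [e, integral_add i5 i3, integral_sub i2 i4, integral_const_mul, setIntegral_const, hv, smul_eq_mul]
  rw [h1] at h0
  have h2 : (∫ p in Q, f p ^ 2) - 2 * ((∫ p in Q, f p) / v) * (∫ p in Q, f p) + v * ((∫ p in Q, f p) / v) ^ 2 =
      (∫ p in Q, f p ^ 2) - (∫ p in Q, f p) ^ 2 / v := by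
    field_simp
    ring
  rw [h2] at h0
  have h3 : (∫ p in Q, f p) ^ 2 / v ≤ ∫ p in Q, f p ^ 2 := by linarith
  rw [div_le_iff₀ hv0] at h3
  linarith

theorem NLS_vol (a b c d : ℝ) (h1 : a ≤ b) (h2 : c ≤ d) : volume.real (Set.Icc a b ×ˢ Set.Icc c d) = (b - a) * (d - c) := by
  rw [Measure.real, Measure.volume_eq_prod, Measure.prod_prod, ENNReal.toReal_mul, Real.volume_Icc, Real.volume_Icc,
    ENNReal.toReal_ofReal (by linarith), ENNReal.toReal_ofReal (by linarith)]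

theorem NLS_Cl {ι : Type} (s : Finset ι) (x y : ι → ℝ) (T H : ℝ) (hT : 0 < T) (hH : 0 < H) :
    Cl s x y (2 * T) (2 * H) ≤ Cl s x y T H := by
  unfold Cl
  refine Finset.card_le_card fun k hk => ?_
  rw [Finset.mem_filter] at hk ⊢
  refine ⟨hk.1, hk.2.1.trans ?_, hk.2.2.trans ?_⟩
  · exact one_div_le_one_div_of_le hT (by linarith)
  · exact one_div_le_one_div_of_le hH (by linarith)

theorem NLS_proof (hNL2 : NL2_stmt) (hNSB : NSB_stmt) (hNEE : NEE_stmt) : NLS_stmt := by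
  intro B hB
  obtain ⟨C0, hC0, hL⟩ := hNL2
  have hcont := hNEE.2.2.2.2.2.2
  have hB0 : 0 < B := by linarith
  refine ⟨144 * B ^ 2 * C0, ?_, ?_⟩
  · have h1 : 1 ≤ B ^ 2 := one_le_pow₀ hB
    nlinarith [mul_le_mul h1 hC0 (by norm_num) (by positivity)]
  intro ι s c x y T H R hc hxy hT hH hR hsep
  obtain ⟨c', hc', hav⟩ := hNSB B hB ι s c x y hxy
  have hT0 : 0 < T := by linarith
  have hH0 : 0 < H := by linarith
  set h : ℝ := 1 / (4 * B) with hh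
  have hh0 : 0 < h := by positivity
  have hh1 : h ≤ 1 / 4 := by
    rw [hh]
    exact one_div_le_one_div_of_le (by norm_num) (by linarith)
  -- the function
  have hFc : Continuous fun p : ℝ × ℝ => F2 s c' x y p.1 p.2 := hcont ι s c' x y
  have hFn : Continuous fun p : ℝ × ℝ => ‖F2 s c' x y p.1 p.2‖ := hFc.norm
  have hFn2 : Continuous fun p : ℝ × ℝ => ‖F2 s c' x y p.1 p.2‖ ^ 2 := hFn.pow 2
  -- the boxes
  let Q : ℝ × ℝ → Set (ℝ × ℝ) := fun r => Set.Icc (r.1 - h) (r.1 + h) ×ˢ Set.Icc (r.2 - h) (r.2 + h)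
  have hQc : ∀ r, IsCompact (Q r) := fun r => isCompact_Icc.prod isCompact_Icc
  have hQm : ∀ r, MeasurableSet (Q r) := fun r => measurableSet_Icc.prod measurableSet_Icc
  have hQv : ∀ r, volume.real (Q r) = 1 / (4 * B ^ 2) := by
    intro r
    have h1 : volume.real (Q r) = ((r.1 + h) - (r.1 - h)) * ((r.2 + h) - (r.2 - h)) :=
      NLS_vol _ _ _ _ (by linarith) (by linarith)
    rw [h1, hh]
    field_simp
    ring
  have hpt : ∀ r : ℝ × ℝ, ‖F2 s c x y r.1 r.2‖ ^ 2 ≤ 4 * B ^ 2 * ∫ p in Q r, ‖F2 s c' x y p.1 p.2‖ ^ 2 := by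
    intro r
    have e1 : ‖F2 s c x y r.1 r.2‖ ≤ 4 * B ^ 2 * ∫ p in Q r, ‖F2 s c' x y p.1 p.2‖ := by
      rw [hav r.1 r.2, norm_mul, Complex.norm_real, Real.norm_of_nonneg (by positivity)]
      exact mul_le_mul_of_nonneg_left (norm_integral_le_integral_norm _) (by positivity)
    have e2 : (∫ p in Q r, ‖F2 s c' x y p.1 p.2‖) ^ 2 ≤ 1 / (4 * B ^ 2) * ∫ p in Q r, ‖F2 s c' x y p.1 p.2‖ ^ 2 :=
      NLS_cs (Q r) (hQc r) _ hFn _ (hQv r) (by positivity)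
    calc ‖F2 s c x y r.1 r.2‖ ^ 2 ≤ (4 * B ^ 2 * ∫ p in Q r, ‖F2 s c' x y p.1 p.2‖) ^ 2 :=
          pow_le_pow_left₀ (norm_nonneg _) e1 2
      _ = (4 * B ^ 2) ^ 2 * (∫ p in Q r, ‖F2 s c' x y p.1 p.2‖) ^ 2 := by ring
      _ ≤ (4 * B ^ 2) ^ 2 * (1 / (4 * B ^ 2) * ∫ p in Q r, ‖F2 s c' x y p.1 p.2‖ ^ 2) :=
          mul_le_mul_of_nonneg_left e2 (by positivity)
      _ = 4 * B ^ 2 * ∫ p in Q r, ‖F2 s c' x y p.1 p.2‖ ^ 2 := by
          field_simp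
  have hdisj : Set.Pairwise (↑R : Set (ℝ × ℝ)) (Function.onFun Disjoint Q) := by
    intro r hr r' hr' hne
    refine Set.disjoint_left.mpr ?_
    rintro p ⟨hp1, hp2⟩ ⟨hp3, hp4⟩
    rw [Set.mem_Icc] at hp1 hp2 hp3 hp4
    rcases hsep r hr r' hr' hne with h5 | h5
    · have h6 : |r.1 - r'.1| ≤ 2 * h := by
        rw [abs_le]
        constructor <;> linarith [hp1.1, hp1.2, hp3.1, hp3.2]
      linarith
    · have h6 : |r.2 - r'.2| ≤ 2 * h := by
        rw [abs_le]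
        constructor <;> linarith [hp2.1, hp2.2, hp4.1, hp4.2]
      linarith
  have hsum : ∑ r ∈ R, ∫ p in Q r, ‖F2 s c' x y p.1 p.2‖ ^ 2 ≤
      ∫ p in Set.Icc (-(2 * T)) (2 * T) ×ˢ Set.Icc (-(2 * H)) (2 * H), ‖F2 s c' x y p.1 p.2‖ ^ 2 := by
    rw [← integral_biUnion_finset R (fun r _ => hQm r) hdisj (fun r _ => hFn2.continuousOn.integrableOn_compact (hQc r))]
    refine setIntegral_mono_set (hFn2.continuousOn.integrableOn_compact (isCompact_Icc.prod isCompact_Icc)) ?_ ?_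
    · exact Filter.Eventually.of_forall fun p => by positivity
    · refine Filter.Eventually.of_forall ?_
      intro p hp
      have hp' : p ∈ ⋃ r ∈ R, Q r := hp
      simp only [Set.mem_iUnion] at hp'
      obtain ⟨r, hr, hp1, hp2⟩ := hp'
      rw [Set.mem_Icc] at hp1 hp2
      obtain ⟨h7, h8⟩ := hR r hr
      rw [abs_le] at h7 h8
      refine ⟨⟨?_, ?_⟩, ⟨?_, ?_⟩⟩ <;> linarith [h7.1, h7.2, h8.1, h8.2, hp1.1, hp1.2, hp2.1, hp2.2]
  have hF3 : ∀ p : ℝ × ℝ, F2 s c' x y p.1 p.2 = 3 * F2 s (fun k => c' k / 3) x y p.1 p.2 := by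
    intro p
    unfold F2
    rw [Finset.mul_sum]
    refine Finset.sum_congr rfl fun k _ => ?_
    ring
  have hbig : ∫ p in Set.Icc (-(2 * T)) (2 * T) ×ˢ Set.Icc (-(2 * H)) (2 * H), ‖F2 s c' x y p.1 p.2‖ ^ 2 ≤
      9 * (C0 * (2 * T) * (2 * H) * (Cl s x y (2 * T) (2 * H) : ℝ)) := by
    have e1 : ∀ p : ℝ × ℝ, ‖F2 s c' x y p.1 p.2‖ ^ 2 = 9 * ‖F2 s (fun k => c' k / 3) x y p.1 p.2‖ ^ 2 := by
      intro p
      rw [hF3 p, norm_mul, Complex.norm_ofNat]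
      ring
    simp only [e1]
    rw [integral_const_mul]
    refine mul_le_mul_of_nonneg_left ?_ (by norm_num)
    refine hL ι s (fun k => c' k / 3) x y (2 * T) (2 * H) ?_ (by linarith) (by linarith)
    intro k hk
    rw [norm_div, Complex.norm_ofNat, div_le_one (by norm_num)]
    calc ‖c' k‖ ≤ 3 * ‖c k‖ := hc' k hk
      _ ≤ 3 * 1 := mul_le_mul_of_nonneg_left (hc k hk) (by norm_num)
      _ = 3 := by norm_num
  have hCl : (Cl s x y (2 * T) (2 * H) : ℝ) ≤ (Cl s x y T H : ℝ) := by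
    exact_mod_cast NLS_Cl s x y T H hT0 hH0
  calc ∑ r ∈ R, ‖F2 s c x y r.1 r.2‖ ^ 2 ≤ ∑ r ∈ R, 4 * B ^ 2 * ∫ p in Q r, ‖F2 s c' x y p.1 p.2‖ ^ 2 :=
        Finset.sum_le_sum fun r _ => hpt r
    _ = 4 * B ^ 2 * ∑ r ∈ R, ∫ p in Q r, ‖F2 s c' x y p.1 p.2‖ ^ 2 := by rw [Finset.mul_sum]
    _ ≤ 4 * B ^ 2 * (9 * (C0 * (2 * T) * (2 * H) * (Cl s x y (2 * T) (2 * H) : ℝ))) :=
        mul_le_mul_of_nonneg_left (hsum.trans hbig) (by positivity)
    _ ≤ 4 * B ^ 2 * (9 * (C0 * (2 * T) * (2 * H) * (Cl s x y T H : ℝ))) := by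
        have hC00 : 0 ≤ C0 := by linarith
        gcongr
    _ = 144 * B ^ 2 * C0 * T * H * (Cl s x y T H : ℝ) := by ring

end

end Pool.Agent.T1N

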